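import Pool.Agent.Helper348.AmBai
import Pool.Agent.Helper348.AmTrans

set_option autoImplicit false

open MeasureTheory

namespace WD

/-- there is a closed Helson subset of the Cantor group which is not of synthesis -/
theorem helson_package : ∃ E : Set G, IsClosed E ∧
    (∀ u : C(E, ℂ), ∃ f : G → ℂ, A f ∧ ∀ x : E, f x = u x) ∧
    (∃ f, A f ∧ (∀ x ∈ E, f x = 0) ∧ ¬ JE E f) := by
  classical
  obtain ⟨E, s, h, hE, hs1, hs2, hs4, hh1, hh2, hσ⟩ := exists_EB
  have hcpt : CompactSpace E := isCompact_iff_compactSpace.1 hE.isCompact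
  have hR1 : ∀ n, R 1 (h n) := by
    intro n
    obtain ⟨a, h1, h2, h3, _⟩ := hh1 n
    exact ⟨a, h1, h2, h3⟩
  -- correction terms
  have hv : ∀ n, ∃ v : G → ℂ, R (64 * (8 * (1 / 2) ^ n)) v ∧ ∀ x ∈ E, v x = 1 - 8 * h n x := by
    intro n
    have hc : Continuous (h n) := A_cont ⟨_, hR1 n⟩
    obtain ⟨v, hv1, hv2⟩ := helsonB E hE h hh2 hσ
      ⟨fun x : E => 1 - 8 * h n x, by fun_prop⟩ (8 * (1 / 2) ^ n) (by positivity) (by
        intro x
        show ‖1 - 8 * h n x‖ ≤ 8 * (1 / 2) ^ n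
        have h1 : 1 - 8 * h n x = (-8) * (h n x - 1 / 8) := by ring
        rw [h1, norm_mul]
        have h2 := hh2 n x x.2
        have h3 : ‖(-8 : ℂ)‖ = 8 := by simp
        rw [h3]
        linarith)
    exact ⟨v, hv1, fun x hx => hv2 ⟨x, hx⟩⟩
  choose v hv1 hv2 using hv
  -- the approximate identity
  have hu1 : ∀ n, R (1 + ‖(-8 : ℂ)‖ * 1 + ‖(-1 : ℂ)‖ * (64 * (8 * (1 / 2) ^ n)))
      (fun x => 1 + (-8) * h n x + (-1) * v n x) := by
    intro n
    exact R_add (R_add R_one (R_smul _ (hR1 n))) (R_smul _ (hv1 n))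
  have h8 : ‖(-8 : ℂ)‖ = 8 := by simp
  have hpow : ∀ n : ℕ, ((1 : ℝ) / 2) ^ n ≤ 1 := fun n => pow_le_one₀ (by norm_num) (by norm_num)
  refine ⟨E, hE, ?_, ?_⟩
  · intro u
    obtain ⟨f, hf1, hf2⟩ := helsonB E hE h hh2 hσ u ‖u‖ (norm_nonneg u)
      (fun x => ContinuousMap.norm_coe_le_norm u x)
    exact ⟨f, ⟨_, hf1⟩, hf2⟩
  · -- non-synthesis
    refine ⟨fun x => 1 + (-8) * h 13 x + (-1) * v 13 x, ⟨_, hu1 13⟩, ?_, ?_⟩
    · intro x hx
      show 1 + (-8) * h 13 x + (-1) * v 13 x = 0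
      rw [hv2 13 x hx]; ring
    · intro hJ
      obtain ⟨a, ha1, ha2, ha3, ha4⟩ := hh1 13
      obtain ⟨b, hb1, hb2, hb3⟩ := hv1 13
      obtain ⟨g, ⟨c, hc1, hc2, hc3⟩, U, hU, hEU, hg⟩ := hJ (1 / 16) (by norm_num)
      have hsumC : ∀ (v : Finset ℕ → ℂ), Summable (fun S => ‖v S‖) → ∀ (t : Finset ℕ → ℝ) (C : ℝ),
          (∀ S, |t S| ≤ C) → Summable (fun S => v S * ((t S : ℝ) : ℂ)) := by
        intro v hv t C ht
        apply Summable.of_norm
        refine Summable.of_nonneg_of_le (fun _ => norm_nonneg _) (fun S => ?_) (hv.mul_right C)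
        rw [norm_mul, Complex.norm_real, Real.norm_eq_abs]
        exact mul_le_mul_of_nonneg_left (ht _) (norm_nonneg _)
      have hδ : Summable (fun S : Finset ℕ => ‖(if S = ∅ then (1 : ℂ) else 0)‖) := by
        apply summable_of_ne_finset_zero (s := {∅})
        intro T hT
        simp at hT
        simp [hT]
      have hbound : ∀ (v : Finset ℕ → ℂ) (K : ℝ), Summable (fun S => ‖v S‖) → (∑' S, ‖v S‖) ≤ K →
          ‖∑' S, v S * ((s S : ℝ) : ℂ)‖ ≤ K * (3 / 2) := by
        intro v K hv hK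
        have h6 : Summable (fun S => ‖v S * ((s S : ℝ) : ℂ)‖) := by
          refine Summable.of_nonneg_of_le (fun _ => norm_nonneg _) (fun S => ?_)
            (hv.mul_right (3 / 2))
          rw [norm_mul, Complex.norm_real, Real.norm_eq_abs]
          exact mul_le_mul_of_nonneg_left (hs1 _) (norm_nonneg _)
        refine (norm_tsum_le_tsum_norm h6).trans ?_
        calc ∑' S, ‖v S * ((s S : ℝ) : ℂ)‖ ≤ ∑' S, ‖v S‖ * (3 / 2) := by
              refine h6.tsum_le_tsum (fun S => ?_) (hv.mul_right (3 / 2))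
              rw [norm_mul, Complex.norm_real, Real.norm_eq_abs]
              exact mul_le_mul_of_nonneg_left (hs1 _) (norm_nonneg _)
          _ = (∑' S, ‖v S‖) * (3 / 2) := tsum_mul_right
          _ ≤ K * (3 / 2) := by linarith
      -- linear combination of the coefficients
      have hlin : ∀ (t : Finset ℕ → ℝ) (C : ℝ), (∀ S, |t S| ≤ C) →
          ∑' S, ((if S = ∅ then (1 : ℂ) else 0) + (-8) * a S + (-1) * b S + (-1) * c S) *
            ((t S : ℝ) : ℂ) = ((t ∅ : ℝ) : ℂ) + (-8) * ∑' S, a S * ((t S : ℝ) : ℂ) +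
              (-1) * ∑' S, b S * ((t S : ℝ) : ℂ) + (-1) * ∑' S, c S * ((t S : ℝ) : ℂ) := by
        intro t C ht
        have e0 := hsumC _ hδ t C ht
        have e1 := hsumC a ha1 t C ht
        have e2 := hsumC b hb1 t C ht
        have e3 := hsumC c hc1 t C ht
        have e4 : ∑' S, (if S = ∅ then (1 : ℂ) else 0) * ((t S : ℝ) : ℂ) = ((t ∅ : ℝ) : ℂ) := by
          rw [tsum_eq_single ∅]
          · simp
          · intro S hS; simp [hS]
        rw [← e4, ← tsum_mul_left, ← tsum_mul_left, ← tsum_mul_left,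
          ← e0.tsum_add (e1.mul_left _), ← (e0.add (e1.mul_left _)).tsum_add (e2.mul_left _),
          ← ((e0.add (e1.mul_left _)).add (e2.mul_left _)).tsum_add (e3.mul_left _)]
        exact tsum_congr fun S => by ring
      have hcomb : Summable (fun S => ‖(if S = ∅ then (1 : ℂ) else 0) + (-8) * a S + (-1) * b S +
          (-1) * c S‖) := by
        have k1 : Summable (fun S => ‖(-8 : ℂ) * a S‖) := by simpa using ha1.mul_left 8
        have k2 : Summable (fun S => ‖(-1 : ℂ) * b S‖) := by simpa using hb1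
        have k3 : Summable (fun S => ‖(-1 : ℂ) * c S‖) := by simpa using hc1
        refine Summable.of_nonneg_of_le (fun _ => norm_nonneg _) (fun S => ?_)
          (((hδ.add k1).add k2).add k3)
        refine (norm_add_le _ _).trans (add_le_add_left ?_ _)
        refine (norm_add_le _ _).trans (add_le_add_left ?_ _)
        exact norm_add_le _ _
      have h0 := hs4 _ hcomb ⟨U, hU, hEU, fun x hx => by
        rw [hlin (fun S => w S x) 1 (fun S => (abs_w S x).le)]
        have h1 : 1 + (-8) * h 13 x + (-1) * v 13 x = g x := hg x hx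
        rw [hc3 x, ha3 x, hb3 x] at h1
        have h2 : ((w ∅ x : ℝ) : ℂ) = 1 := by simp [w]
        rw [h2]
        linear_combination h1⟩
      rw [hlin s (3 / 2) hs1] at h0
      have hb4 := hbound b _ hb1 hb2
      have hc4 := hbound c _ hc1 hc2
      have h5 : ((s ∅ : ℝ) : ℂ) = 8 * ∑' S, a S * ((s S : ℝ) : ℂ) + ∑' S, b S * ((s S : ℝ) : ℂ) +
          ∑' S, c S * ((s S : ℝ) : ℂ) := by
        linear_combination h0
      have h6 : ‖((s ∅ : ℝ) : ℂ)‖ ≤ 8 * (1 / 2) ^ 13 + 64 * (8 * (1 / 2) ^ 13) * (3 / 2) +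
          1 / 16 * (3 / 2) := by
        rw [h5]
        refine (norm_add_le _ _).trans (add_le_add ?_ hc4)
        refine (norm_add_le _ _).trans (add_le_add ?_ hb4)
        rw [norm_mul]
        have h7 : ‖(8 : ℂ)‖ = 8 := by simp
        rw [h7]
        exact mul_le_mul_of_nonneg_left ha4 (by norm_num)
      rw [Complex.norm_real, Real.norm_eq_abs, abs_of_nonneg (by linarith)] at h6
      norm_num at h6
      linarith

end WD

namespace Am

open WD

theorem closure_of_JE {E : Set G} {f : FA G} (h : JE E (f : G → ℂ)) : f ∈ (JEi E).closure := by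
  show f ∈ closure ((JEi E : Ideal (FA G)) : Set (FA G))
  rw [Metric.mem_closure_iff]
  intro ε hε
  obtain ⟨g, hg, U, hU, hEU, hfg⟩ := h (ε / 2) (by linarith)
  refine ⟨f - toFA g hg, ⟨U, hU, hEU, fun x hx => ?_⟩, ?_⟩
  · show f x - g x = 0
    rw [hfg x hx, sub_self]
  · rw [dist_eq_norm]
    have h1 : f - (f - toFA g hg) = toFA g hg := sub_sub_cancel _ _
    rw [h1]
    exact lt_of_le_of_lt (norm_toFA g hg) (by linarith)

theorem closure_JEi_le (E : Set G) : (JEi E).closure ≤ IE E := by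
  intro f hf x hx
  have h2 : ‖(f : FA G) x‖ ≤ 0 := by
    refine le_of_forall_pos_le_add fun ε hε => ?_
    rw [zero_add]
    exact Q_bound (JE_of_closure hf ε hε) hx
  exact norm_le_zero_iff.1 h2

/-- `E` is a Helson set: every continuous function on `E` is the restriction to `E` of a function
in `A(Γ)` -/
def IsHelson {Γ : Type} [CommGroup Γ] [TopologicalSpace Γ] (E : Set Γ) : Prop :=
  ∀ u : C(E, ℂ), ∃ f : FA Γ, ∀ x : E, f x = u x

/-- `M` is a vector space complement of `N = I(E) / closure J(E)` in `A_E = A(Γ) / closure J(E)` -/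
def Complements {Γ : Type} [CommGroup Γ] [TopologicalSpace Γ] (E : Set Γ)
    (M : NonUnitalSubalgebra ℂ (AE E)) : Prop :=
  (∀ b : AE E, ∃ m ∈ M, ∃ n ∈ subRE E, b = m + n) ∧ ∀ b ∈ M, b ∈ subRE E → b = 0

/-- `A_E = A(Γ) / closure J(E)` has a Wedderburn decomposition: a (not necessarily closed)
subalgebra `M` which is a vector space complement of `I(E) / closure J(E)` -/
def HasWedderburn {Γ : Type} [CommGroup Γ] [TopologicalSpace Γ] (E : Set Γ) : Prop :=
  ∃ M : NonUnitalSubalgebra ℂ (AE E), Complements E M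

theorem exists_helson : ∃ E : Set G, IsCompact E ∧ IsHelson E ∧ FailsSynthesis E := by
  obtain ⟨E, hE, hH, f, hf, hf0, hfJ⟩ := helson_package
  refine ⟨E, hE.isCompact, ?_, ?_⟩
  · intro u
    obtain ⟨f, ⟨c, hc⟩, hf⟩ := hH u
    exact ⟨toFA f hc, hf⟩
  · intro heq
    obtain ⟨c, hc⟩ := hf
    apply hfJ
    have h1 : toFA f hc ∈ IE E := hf0
    rw [← heq] at h1
    exact JE_of_closure h1

theorem no_wedderburn {E : Set G} (hE : IsCompact E) (hH : IsHelson E) (hS : FailsSynthesis E) :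
    ¬ HasWedderburn E := by
  rintro ⟨M, hM⟩
  apply hS
  -- the splitting map
  have key : ∀ u : C(E, ℂ), ∃ f : FA G, (∀ x : E, f x = u x) ∧ mk E f ∈ M := by
    intro u
    obtain ⟨f, hf⟩ := hH u
    obtain ⟨m, hm, n, ⟨g, hg, hgn⟩, hmn⟩ := hM.1 (mk E f)
    refine ⟨f - g, ?_, ?_⟩
    · intro x
      show f x - g x = u x
      rw [hf x, hg x x.2, sub_zero]
    · have h2 : mk E (f - g) = m := by
        rw [map_sub, hmn]
        have h3 : mk E g = n := hgn
        rw [h3, add_sub_cancel_right]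
      rw [h2]
      exact hm
  choose Θ h1 h2 using key
  have hz : ∀ d : FA G, mk E d ∈ M → (∀ x ∈ E, d x = 0) → JE E (d : G → ℂ) := by
    intro d hd hd0
    have h4 : mk E d = 0 := hM.2 _ hd ⟨d, hd0, rfl⟩
    exact JE_of_closure (Ideal.Quotient.eq_zero_iff_mem.1 h4)
  have hsplit : Split E (fun u => (Θ u : G → ℂ)) := by
    refine ⟨fun u => A_of_FA _, fun u x hx => h1 u ⟨x, hx⟩, ?_, ?_, ?_⟩
    · intro u v
      apply hz (Θ (u + v) - Θ u - Θ v)
      · rw [map_sub, map_sub]
        exact sub_mem (sub_mem (h2 _) (h2 _)) (h2 _)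
      · intro x hx
        show Θ (u + v) x - Θ u x - Θ v x = 0
        have e1 := h1 (u + v) ⟨x, hx⟩
        have e2 := h1 u ⟨x, hx⟩
        have e3 := h1 v ⟨x, hx⟩
        change Θ (u + v) x = _ at e1
        change Θ u x = _ at e2
        change Θ v x = _ at e3
        rw [e1, e2, e3, ContinuousMap.add_apply]
        ring
    · intro c u
      apply hz (Θ (c • u) - c • Θ u)
      · rw [map_sub, mk_smul]
        exact sub_mem (h2 _) (M.smul_mem c (h2 _))
      · intro x hx
        show Θ (c • u) x - c * Θ u x = 0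
        have e1 := h1 (c • u) ⟨x, hx⟩
        have e2 := h1 u ⟨x, hx⟩
        change Θ (c • u) x = _ at e1
        change Θ u x = _ at e2
        rw [e1, e2, ContinuousMap.smul_apply, smul_eq_mul]
        ring
    · intro u v
      apply hz (Θ (u * v) - Θ u * Θ v)
      · rw [map_sub, map_mul]
        exact sub_mem (h2 _) (mul_mem (h2 _) (h2 _))
      · intro x hx
        show Θ (u * v) x - Θ u x * Θ v x = 0
        have e1 := h1 (u * v) ⟨x, hx⟩
        have e2 := h1 u ⟨x, hx⟩
        have e3 := h1 v ⟨x, hx⟩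
        change Θ (u * v) x = _ at e1
        change Θ u x = _ at e2
        change Θ v x = _ at e3
        rw [e1, e2, e3, ContinuousMap.mul_apply]
        ring
  apply le_antisymm (closure_JEi_le E)
  intro f hf
  exact closure_of_JE (split_synth hE.isClosed hsplit (A_of_FA f) hf)

end Am
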